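import Pool.Agent.P.MP_992ce1_gt.T.Main

/-! The conjecture on growth coefficients versus orbit counts on the once punctured torus is false:
for some `k` the sum of the growth coefficients of the orbits with self-intersection number `k` is
smaller than `N(k) - 1`. -/

open Filter Topology Pool.Agent.P992.T

theorem Pool.Agent.Results.MP_992ce1_gt.Torus.result :
    ∃ k : ℕ, ∃ hk : (Orbs k).Finite, ∀ p : Set (Set Curve) → ℝ,
      (∀ O ∈ Orbs k,
        Tendsto (fun l : ℕ => Real.pi ^ 2 * (cnt O l : ℝ) / (6 * (l : ℝ) ^ 2)) atTop (𝓝 (p O))) →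
      1 < ((Orbs k).ncard : ℝ) - ∑ O ∈ hk.toFinset, p O :=
  main
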